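import Mathlib
import Pool.Agent.H48.QuotC0
import Pool.Agent.H48.ParMain
import Pool.Agent.Helper49.OCA.Operator
/-!
The statement `S` is independent of ZFC: it fails under the continuum hypothesis (even for
isometric copies), and it follows from Todorcevic's open colouring axiom.
-/

set_option autoImplicit false
open Filter Topology Cardinal

namespace Pool.Agent.Results.MP_4890b1_an.Independence

/-- The Banach space `ℓ∞` of bounded real sequences. -/
def EllInf : Type := lp (fun _ : ℕ => ℝ) ⊤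

noncomputable instance : NormedAddCommGroup EllInf := lp.normedAddCommGroup

noncomputable instance : NormedSpace ℝ EllInf :=
  (inferInstance : NormedSpace ℝ (lp (fun _ : ℕ => ℝ) ⊤))

/-- The sequence of the values of an element of `ℓ∞`. -/
def EllInf.toSeq (f : EllInf) : ℕ → ℝ := f.1

theorem toSeq_add {f g : EllInf} (hf : Tendsto f.toSeq atTop (𝓝 0))
    (hg : Tendsto g.toSeq atTop (𝓝 0)) : Tendsto (f + g).toSeq atTop (𝓝 0) :=
  Pool.Agent.H48.Par.c0.add_mem' hf hg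

theorem toSeq_zero : Tendsto (0 : EllInf).toSeq atTop (𝓝 0) :=
  Pool.Agent.H48.Par.c0.zero_mem'

theorem toSeq_smul (c : ℝ) {f : EllInf} (hf : Tendsto f.toSeq atTop (𝓝 0)) :
    Tendsto (c • f).toSeq atTop (𝓝 0) :=
  Pool.Agent.H48.Par.c0.smul_mem' c hf

/-- The subspace `c₀` of `ℓ∞`: the sequences tending to `0`. -/
def cZero : Submodule ℝ EllInf where
  carrier := {f | Tendsto f.toSeq atTop (𝓝 0)}
  add_mem' := fun hf hg => toSeq_add hf hg
  zero_mem' := toSeq_zero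
  smul_mem' := fun c _ hf => toSeq_smul c hf

instance cZero_closed : IsClosed (cZero : Set EllInf) := Pool.Agent.H48.Par.c0_closed

/-- The Banach space `ℓ∞/c₀` of bounded real sequences modulo sequences tending to `0`. -/
def Q : Type := EllInf ⧸ cZero

noncomputable instance : NormedAddCommGroup Q := Submodule.Quotient.normedAddCommGroup cZero

noncomputable instance : NormedSpace ℝ Q := Submodule.Quotient.normedSpace cZero ℝ

/-- `Y` is a copy of `ℓ∞/c₀` inside `ℓ∞/c₀`: a closed linear subspace linearly isomorphic to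
`ℓ∞/c₀`. -/
def IsCopy (Y : Submodule ℝ Q) : Prop :=
  IsClosed (Y : Set Q) ∧ Nonempty (Q ≃L[ℝ] Y)

/-- `Y` is an isometric copy of `ℓ∞/c₀` inside `ℓ∞/c₀`. -/
def IsIsometricCopy (Y : Submodule ℝ Q) : Prop :=
  IsClosed (Y : Set Q) ∧ Nonempty (Q ≃ₗᵢ[ℝ] Y)

/-- `Z` is complemented in `ℓ∞/c₀`: it is the range of a bounded linear projection. -/
def IsComplementedSubspace (Z : Submodule ℝ Q) : Prop :=
  ∃ P : Q →L[ℝ] Q, P ∘L P = P ∧ LinearMap.range P.toLinearMap = Z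

/-- The statement `S` of the problem: every copy of `ℓ∞/c₀` inside `ℓ∞/c₀` contains a copy of
`ℓ∞/c₀` that is complemented in `ℓ∞/c₀`. -/
def StatementS : Prop :=
  ∀ Y : Submodule ℝ Q, IsCopy Y →
    ∃ Z : Submodule ℝ Q, Z ≤ Y ∧ IsCopy Z ∧ IsComplementedSubspace Z

/-- Todorcevic's open colouring axiom: for every separable metrizable space `X` and every
open symmetric set `K` of pairs, either some uncountable `Y ⊆ X` has all its pairs of distinct
points in `K`, or `X` is a countable union of sets none of whose pairs of distinct points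
is in `K`. -/
def OpenColoringAxiom : Prop :=
  ∀ (X : Type) [TopologicalSpace X] [TopologicalSpace.MetrizableSpace X]
    [SecondCountableTopology X] (K : Set (X × X)),
    IsOpen K → (∀ x y : X, (x, y) ∈ K → (y, x) ∈ K) →
    (∃ Y : Set X, ¬ Y.Countable ∧ ∀ x ∈ Y, ∀ y ∈ Y, x ≠ y → (x, y) ∈ K) ∨
    (∃ Z : ℕ → Set X, (⋃ n, Z n) = Set.univ ∧ ∀ n, ∀ x ∈ Z n, ∀ y ∈ Z n, x ≠ y → (x, y) ∉ K)

theorem completeQ : CompleteSpace Q := by
  have h0 : CompleteSpace EllInf := inferInstanceAs (CompleteSpace (lp (fun _ : ℕ => ℝ) ⊤))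
  exact Submodule.Quotient.completeSpace cZero

/-! ### The continuum hypothesis refutes `S` -/

theorem main' (hCH : (ℵ₁ : Cardinal.{0}) = 𝔠) : ∃ J : Q →ₗᵢ[ℝ] Q,
    ∀ Z : Submodule ℝ Q,
    Z ≤ LinearMap.range J.toLinearMap → Nonempty (Z ≃L[ℝ] Q) →
      ¬ ∃ P : Q →L[ℝ] Q, (∀ x, P x ∈ Z) ∧ ∀ z ∈ Z, P z = z :=
  Pool.Agent.H48.Par.main hCH

theorem not_complemented (hCH : (ℵ₁ : Cardinal.{0}) = 𝔠) :
    ∃ Y : Submodule ℝ Q, IsIsometricCopy Y ∧
      ∀ Z : Submodule ℝ Q, Z ≤ Y → IsCopy Z → ¬ IsComplementedSubspace Z := by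
  obtain ⟨J, hJ⟩ := main' hCH
  have hj : Nonempty (Q ≃ₗᵢ[ℝ] LinearMap.range J.toLinearMap) :=
    ⟨LinearIsometryEquiv.ofSurjective
      ⟨J.toLinearMap.rangeRestrict, fun x => J.norm_map x⟩ (by
      rintro ⟨_, ⟨x, rfl⟩⟩
      exact ⟨x, rfl⟩)⟩
  have h0' : CompleteSpace Q := completeQ
  refine ⟨LinearMap.range J.toLinearMap, ⟨?_, hj⟩, ?_⟩
  · have h1 : ((LinearMap.range J.toLinearMap : Submodule ℝ Q) : Set Q) =
        Set.range J := by
      ext x
      simp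
    rw [h1]
    exact J.isometry.isClosedEmbedding.isClosed_range
  · rintro Z hZ ⟨-, ⟨e⟩⟩ ⟨P, hPP, hPZ⟩
    refine hJ Z hZ ⟨e.symm⟩ ⟨P, fun x => ?_, fun z hz => ?_⟩
    · rw [← hPZ]
      exact ⟨x, rfl⟩
    · rw [← hPZ] at hz
      obtain ⟨x, rfl⟩ := hz
      exact congrArg (fun T : Q →L[ℝ] Q => T x) hPP

theorem not_S (hCH : (ℵ₁ : Cardinal.{0}) = 𝔠) : ¬ StatementS := by
  intro hS
  obtain ⟨Y, ⟨hY, ⟨e⟩⟩, hYZ⟩ := not_complemented hCH
  obtain ⟨Z, hZY, hZ, hZc⟩ := hS Y ⟨hY, ⟨e.toContinuousLinearEquiv⟩⟩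
  exact hYZ Z hZY hZ hZc

/-! ### The open colouring axiom implies `S` -/

theorem mainO' (hO : OpenColoringAxiom) (T : Q →L[ℝ] Q) {c : ℝ} (hc : 0 < c)
    (hT : ∀ x, c * ‖x‖ ≤ ‖T x‖) : ∃ (A B : Q →L[ℝ] Q), ∀ x, B (T (A x)) = x :=
  Pool.Agent.Helper49.OCA.main_OCA hO T hc hT

theorem S_of_OCA (hO : OpenColoringAxiom) : StatementS := by
  rintro Y ⟨-, ⟨e⟩⟩
  have h0' : CompleteSpace Q := completeQ
  let T : Q →L[ℝ] Q := Y.subtypeL ∘L (e : Q →L[ℝ] Y)
  have hTY : ∀ x, T x ∈ Y := fun x => (e x).2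
  -- `T` is bounded below
  obtain ⟨c, hc, hT⟩ : ∃ c : ℝ, 0 < c ∧ ∀ x, c * ‖x‖ ≤ ‖T x‖ := by
    refine ⟨1 / (‖(e.symm : Y →L[ℝ] Q)‖ + 1), by positivity, fun x => ?_⟩
    have h1 : ‖x‖ ≤ ‖(e.symm : Y →L[ℝ] Q)‖ * ‖e x‖ := by
      have := (e.symm : Y →L[ℝ] Q).le_opNorm (e x)
      simpa using this
    have h2 : ‖T x‖ = ‖e x‖ := rfl
    rw [h2, one_div, inv_mul_le_iff₀ (by positivity)]
    nlinarith [norm_nonneg (e x), norm_nonneg (e.symm : Y →L[ℝ] Q)]
  obtain ⟨A, B, hAB⟩ := mainO' hO T hc hT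
  let P : Q →L[ℝ] Q := T ∘L A ∘L B
  have hPz : ∀ x, P (T (A x)) = T (A x) := by
    intro x
    show T (A (B (T (A x)))) = T (A x)
    rw [hAB]
  have hPP : P ∘L P = P := by
    ext1 x
    exact hPz (B x)
  refine ⟨LinearMap.range P.toLinearMap, ?_, ⟨?_, ?_⟩, P, hPP, rfl⟩
  · rintro _ ⟨x, rfl⟩
    exact hTY _
  · have h1 : ((LinearMap.range P.toLinearMap : Submodule ℝ Q) : Set Q) = {x | P x = x} := by
      ext x
      constructor
      · rintro ⟨y, rfl⟩
        exact congrArg (fun T : Q →L[ℝ] Q => T y) hPP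
      · intro hx
        exact ⟨x, hx⟩
    rw [h1]
    exact isClosed_eq P.continuous continuous_id
  · have hmem : ∀ x, T (A x) ∈ LinearMap.range P.toLinearMap := fun x => ⟨T (A x), hPz x⟩
    refine ⟨ContinuousLinearEquiv.equivOfInverse ((T ∘L A).codRestrict _ hmem)
      (B ∘L (LinearMap.range P.toLinearMap).subtypeL) (fun x => hAB x) ?_⟩
    rintro ⟨_, ⟨x, rfl⟩⟩
    apply Subtype.ext
    show T (A (B (T (A (B x))))) = T (A (B x))
    rw [hAB]

/-- `S` fails under the continuum hypothesis (there is even an isometric copy of `ℓ∞/c₀` none of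
whose subspaces is a complemented copy of `ℓ∞/c₀`), and `S` holds under the open colouring axiom.
-/
theorem result :
    ((ℵ₁ : Cardinal.{0}) = 𝔠 → ¬ StatementS ∧
      ∃ Y : Submodule ℝ Q, IsIsometricCopy Y ∧
        ∀ Z : Submodule ℝ Q, Z ≤ Y → IsCopy Z → ¬ IsComplementedSubspace Z) ∧
    (OpenColoringAxiom → StatementS) :=
  ⟨fun h => ⟨not_S h, not_complemented h⟩, S_of_OCA⟩

end Pool.Agent.Results.MP_4890b1_an.Independence
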